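import Pool.Agent.helper17.EXT.Spec

/-!
# Row ft:FPT (MP_561ff4_al): `⟨E th⟩` is the only long root point fixed by `GS ∩ UG`
-/

set_option autoImplicit false

open Finset

namespace Pool.Agent.EXT

open Pool.Agent.EXC

theorem FPT_pos (i : Fin 6) : Pos (sr i : Fin 6 → ℤ) := by
  intro k
  show (0 : ℤ) ≤ (Pi.single i 1 : Fin 6 → ℤ) k
  by_cases hk : k = i
  · subst hk
    simp
  · simp [hk]

theorem FPT_fix (hth : LR th) (K : Type) [Field K] : ∀ u ∈ UG C6 K, u (E C6 th) = (E C6 th : Lm C6 K) := by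
  obtain ⟨-, h0, -, -⟩ := f_DMN 6 C6 1 th ![0, 2, 3, 4, 5] f_DE6.2
  intro u hu
  induction hu using Subgroup.closure_induction with
  | mem g hg =>
    obtain ⟨γ, hγ, hp, t, ht⟩ := hg
    rw [ht (E C6 th)]
    exact (f_ACT 6 C6 K γ t hγ).1 th hth.1 (h0 γ hp)
  | one => rfl
  | mul x y _ _ hx hy => rw [LinearEquiv.mul_apply, hy, hx]
  | inv x _ hx =>
    have h1 : x⁻¹ (x (E C6 th)) = (E C6 th : Lm C6 K) := LinearEquiv.symm_apply_apply x _
    rw [hx] at h1
    exact h1

/-- coefficients -/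
theorem FPT_cf {K : Type} [Field K] (β : Fin 6 → ℤ) (hβ : ip C6 β β = 2) (i : Fin 6) :
    (ip C6 β (sr i) = -1 → cf (xe C6 (E C6 (sr i)) 1 (E C6 β) : Lm C6 K) (sr i + β) ≠ 0 ∧ cf (E C6 β : Lm C6 K) (sr i + β) = 0) := by
  intro hi
  have hsr : (sr i : Fin 6 → ℤ) ≠ 0 := by
    intro h0
    have h1 := ip_sr_self C6 i
    rw [h0] at h1
    simp at h1
  have h1 : ip C6 (sr i) β = -1 := by rw [ip_comm, hi]
  have h2 := (f_ACT 6 C6 K (sr i) 1 (ip_sr_self C6 i)).2.1 β hβ h1
  have hr : ip C6 (sr i + β) (sr i + β) = 2 := (add_root_iff (ip_sr_self C6 i) hβ).2 h1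
  constructor
  · rw [h2]
    simp only [cf_add, cf_smul]
    rw [cf_E C6 hβ, cf_E C6 hr, if_pos rfl, if_neg (fun h => hsr (by simpa using h))]
    have h4 := sg_ne_zero (F := K) C6 (sr i) β
    simpa using h4
  · rw [cf_E C6 hβ, if_neg (fun h => hsr (by simpa using h))]

theorem FPT (hRTF : RTF_stmt) (hSGR : SGR_stmt) (hESF : ESF_stmt) (hYSS : YSS_stmt) (hACS : ACS_stmt) : FPT_stmt := by
  intro K _ τ hτ a ha hk
  obtain ⟨hpi, -, hpa, hneg, hps, hpp, -, -, -, hsn, -, -, hperp, hth, -⟩ := hRTF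
  obtain ⟨hS1, hS2, -, -, hS5, -⟩ := hSGR K τ hτ
  obtain ⟨-, -, -, hdom⟩ := f_DMN 6 C6 1 th ![0, 2, 3, 4, 5] f_DE6.2
  have hfix := FPT_fix hth K
  obtain ⟨g, hg, α, hα, c, hτc, hc, hac⟩ := ha
  obtain ⟨u, hu, huU, β, hβ, c1, hτc1, hc1, hgu⟩ := hYSS K τ hτ g hg α hα
  have ha2 : a = (c * c1) • u (E C6 β) := by rw [hac, hgu, smul_smul]
  have hcc : c * c1 ≠ 0 := mul_ne_zero hc hc1
  -- `GS ∩ UG` fixes the line of `E β`
  have hline : ∀ v ∈ GS τ, v ∈ UG C6 K → ∃ κ : K, v (E C6 β) = κ • (E C6 β : Lm C6 K) := by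
    intro v hv hvU
    obtain ⟨κ, hκ⟩ := hk (u * v * u⁻¹) (mul_mem (mul_mem hu hv) (inv_mem hu)) (mul_mem (mul_mem huU hvU) (inv_mem huU))
    refine ⟨κ, ?_⟩
    have h1 : (u * v * u⁻¹) a = (c * c1) • u (v (E C6 β)) := by
      rw [ha2, map_smul]
      congr 1
      rw [← LinearEquiv.mul_apply, inv_mul_cancel_right]
      rfl
    rw [h1, ha2, smul_comm κ] at hκ
    have h2 : u (v (E C6 β)) = κ • u (E C6 β) := smul_right_injective _ hcc hκ
    rw [← map_smul] at h2
    exact u.injective h2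
  have hβθ : β = th := by
    by_contra hne
    obtain ⟨i, hi⟩ := hdom β hβ.1 hne
    by_cases hpn : pn i = i
    · -- a long simple root
      have hL : LR (sr i) := ⟨ip_sr_self C6 i, by rw [hps, hpn]⟩
      obtain ⟨h, hhG, hh⟩ := hS2 (sr i) 1 hL (map_one τ)
      have hU : h ∈ UG C6 K := Subgroup.subset_closure ⟨sr i, ip_sr_self C6 i, FPT_pos i, 1, hh⟩
      obtain ⟨κ, hκ⟩ := hline h hhG hU
      rw [hh (E C6 β)] at hκ
      rcases hi with hi | hi
      · obtain ⟨h3, h4⟩ := FPT_cf (K := K) β hβ.1 i hi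
        apply h3
        rw [hκ, cf_smul, h4, mul_zero]
      · have h2 := (f_ACT 6 C6 K (sr i) 1 (ip_sr_self C6 i)).2.2.1
        rw [hi, h2] at hκ
        have h3 := congrArg (fun x : Lm C6 K => cf x (sr i)) hκ
        simp only [cf_add, cf_sub, cf_smul, cf_ht] at h3
        have hne2 : (sr i : Fin 6 → ℤ) ≠ -sr i := by
          intro h
          have h5 : ip C6 (sr i) (sr i) = ip C6 (sr i) (-sr i) := congrArg (ip C6 (sr i)) h
          rw [ip_neg_right, ip_sr_self] at h5
          omega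
        rw [cf_E C6 (neg_root C6 (ip_sr_self C6 i)), cf_E C6 (ip_sr_self C6 i), if_pos rfl, if_neg hne2] at h3
        simp at h3
    · -- a short simple root
      have hSr : SR (sr i) := by
        refine ⟨ip_sr_self C6 i, ?_⟩
        rw [hps]
        intro h
        apply hpn
        by_contra hne3
        have h5 := congrFun h (pn i)
        simp [sr, Pi.single_apply, hne3] at h5
      rcases hi with hi | hi
      · obtain ⟨h, hhG, hh⟩ := hS1 (sr i) 1 hSr
        have hi' : ip C6 (sr i) β = -1 := by rw [ip_comm, hi]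
        obtain ⟨hA1, -, -, hA⟩ := hACS K τ hτ (sr i) β hSr hβ
        obtain ⟨-, hA2⟩ := hA 1 h hh
        obtain ⟨-, hA3⟩ := hA2 hi'
        have hU : h ∈ UG C6 K := by
          obtain ⟨-, hExE, hExa, -⟩ := f_EXF 6 C6 K (f_NBR 6 C6 1 th ![0, 2, 3, 4, 5] f_DE6.2).1
          obtain ⟨-, -, -, -, hx1, -⟩ := hExa (E C6 (sr i)) (hExE (sr i) (ip_sr_self C6 i))
          obtain ⟨-, -, -, -, hx2, -⟩ := hExa (E C6 (sr (pn i))) (hExE (sr (pn i)) (ip_sr_self C6 (pn i)))
          obtain ⟨p, -, hp⟩ := hx1 1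
          obtain ⟨q, -, hq⟩ := hx2 ((sn (sr i) : K) * τ 1)
          have e : h = p * q := by
            ext v : 1
            rw [LinearEquiv.mul_apply, hp, hq, hh v, hps]
          rw [e]
          exact mul_mem (Subgroup.subset_closure ⟨sr i, ip_sr_self C6 i, FPT_pos i, _, hp⟩)
            (Subgroup.subset_closure ⟨sr (pn i), ip_sr_self C6 (pn i), FPT_pos (pn i), _, hq⟩)
        obtain ⟨κ, hκ⟩ := hline h hhG hU
        rw [hA3] at hκ
        have hr : ip C6 (sr i + β) (sr i + β) = 2 := (add_root_iff (ip_sr_self C6 i) hβ.1).2 hi'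
        have hp1 : ip C6 (pv (sr i)) β = -1 := by rw [hA1, hi']
        have hps2 : ip C6 (pv (sr i)) (pv (sr i)) = 2 := by rw [hpi]; exact ip_sr_self C6 i
        have hr2 : ip C6 (pv (sr i) + β) (pv (sr i) + β) = 2 := (add_root_iff hps2 hβ.1).2 hp1
        have hr3 : ip C6 (sr i + pv (sr i) + β) (sr i + pv (sr i) + β) = 2 := by
          have h6 : ip C6 (sr i) (pv (sr i) + β) = -1 := by rw [ip_add_right, hperp (sr i) hSr, hi', zero_add]
          have h7 := (add_root_iff (ip_sr_self C6 i) hr2).2 h6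
          rw [add_assoc]
          exact h7
        have hsr : (sr i : Fin 6 → ℤ) ≠ 0 := by
          intro h0
          have h1 := ip_sr_self C6 i
          rw [h0] at h1
          simp at h1
        have hsr' : pv (sr i) ≠ 0 := by
          intro h0
          rw [h0] at hps2
          simp at hps2
        have h3 := congrArg (fun x : Lm C6 K => cf x (sr i + β)) hκ
        simp only [cf_add, cf_smul] at h3
        rw [cf_E C6 hβ.1, cf_E C6 hr, cf_E C6 hr2, cf_E C6 hr3, if_pos rfl, if_neg (fun h => hsr (by simpa using h)),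
          if_neg (fun h => hSr.2 (by simpa using h.symm)), if_neg ?_] at h3
        · have h4 := sg_ne_zero (F := K) C6 (sr i) β
          apply h4
          simpa using h3
        · intro h
          apply hsr'
          calc pv (sr i) = (sr i + pv (sr i) + β) - (sr i + β) := by abel
            _ = 0 := by rw [← h, sub_self]
      · exfalso
        apply hSr.2
        have h9 := hβ.2
        rw [hi, hneg] at h9
        exact neg_injective h9
  have e3 : a = (c * c1) • E C6 th := by rw [ha2, hβθ, hfix u huU]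
  exact ⟨c * c1, by rw [map_mul, hτc, hτc1], e3⟩

end Pool.Agent.EXT
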