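import Pool.Agent.helper53.EXT.SpecG

/-!
# Row ft5:G5R (MP_561ff4_al): finite facts on the four roots
-/

set_option autoImplicit false

open Finset

namespace Pool.Agent.EXT

open Pool.Agent.EXC

theorem G5R : G5R_stmt := by
  refine ⟨?_, ?_, ?_, ?_, ?_, ?_, ?_, ?_⟩
  · unfold LR
    decide +kernel
  · unfold SR
    decide +kernel
  · decide +kernel
  · decide +kernel
  · decide +kernel
  · decide +kernel
  · decide +kernel
  · decide +kernel

end Pool.Agent.EXT
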