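import Pool.Agent.helper17.EXT.SpecJ
import Pool.Agent.helper25.EXT.YSS

/-!
# Row ftj:JYS (MP_561ff4_al): short root subgroups up to conjugation by `GS ∩ UG`, characteristic 2
-/

set_option autoImplicit false

open Finset

namespace Pool.Agent.EXT

open Pool.Agent.EXC

/-- `g X_γ g⁻¹ = u X_γ' u⁻¹` -/
def JYS_P {K : Type} [Field K] (γ : Fin 6 → ℤ) (g : Lm C6 K ≃ₗ[K] Lm C6 K) : Prop :=
  ∃ u ∈ GS (RingEquiv.refl K), u ∈ UG C6 K ∧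
  ∃ γ', SR γ' ∧ ∃ c : K, c ≠ 0 ∧ ∀ (t : K) (h h' : Lm C6 K ≃ₗ[K] Lm C6 K), IsS (RingEquiv.refl K) γ t h → IsS (RingEquiv.refl K) γ' (c * t) h' →
    g * h * g⁻¹ = u * h' * u⁻¹

theorem JYS_inv_apply {K : Type} [Field K] (z : Lm C6 K ≃ₗ[K] Lm C6 K) (v : Lm C6 K) : z (z⁻¹ v) = v :=
  LinearEquiv.apply_symm_apply z v

theorem JYS_conj (hSIG : SIG_stmt) (hSGR : SGR_stmt) {K : Type} [Field K] (h2 : (2 : K) = 0)
    (hsn : ∀ v : Fin 6 → ℤ, sn v = 1 ∨ sn v = -1) (hpi : ∀ v w, ip C6 (pv v) (pv w) = ip C6 v w)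
    (z w : Lm C6 K ≃ₗ[K] Lm C6 K) (hz : z ∈ GS (RingEquiv.refl K)) (hw : w ∈ GS (RingEquiv.refl K))
    (γ₁ γ₂ : Fin 6 → ℤ) (h₁ : SR γ₁) (h₂ : SR γ₂) (c : K) (he : z (E C6 γ₁) = c • (w (E C6 γ₂) : Lm C6 K))
    (T : K) (g₁ g₂ : Lm C6 K ≃ₗ[K] Lm C6 K) (hg₁ : IsS (RingEquiv.refl K) γ₁ T g₁) (hg₂ : IsS (RingEquiv.refl K) γ₂ (c * T) g₂) :
    z * g₁ * z⁻¹ = w * g₂ * w⁻¹ := by
  have hτ : ∀ x : K, (RingEquiv.refl K) ((RingEquiv.refl K) x) = x := fun _ => rfl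
  have hsK : ∀ v : Fin 6 → ℤ, ((sn v : ℤ) : K) = 1 := by
    intro v
    rcases hsn v with h | h
    · rw [h, Int.cast_one]
    · rw [h, Int.cast_neg, Int.cast_one]
      have : (1 : K) + 1 = 0 := by rw [one_add_one_eq_two, h2]
      exact neg_eq_of_add_eq_zero_right this
  obtain ⟨-, hsm, -, -, -, hsE, -, -⟩ := hSIG K (RingEquiv.refl K) hτ
  obtain ⟨-, -, -, -, -, hall⟩ := hSGR K (RingEquiv.refl K) hτ
  obtain ⟨-, hAz, hcz⟩ := hall z hz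
  obtain ⟨-, hAw, hcw⟩ := hall w hw
  obtain ⟨-, hE, hX, -⟩ := f_EXF 6 C6 K YSS_hb
  have hp₁ : ip C6 (pv γ₁) (pv γ₁) = 2 := by rw [hpi]; exact h₁.1
  have hp₂ : ip C6 (pv γ₂) (pv γ₂) = 2 := by rw [hpi]; exact h₂.1
  have x1 := (hX _ (hE γ₁ h₁.1)).1
  have x1' := (hX _ (hE (pv γ₁) hp₁)).1
  have x2 := (hX _ (hE γ₂ h₂.1)).1
  have x2' := (hX _ (hE (pv γ₂) hp₂)).1
  obtain ⟨-, -, u1, -⟩ := f_XAU 6 C6 K _ x1
  obtain ⟨-, -, u1', -⟩ := f_XAU 6 C6 K _ x1'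
  obtain ⟨-, -, u2, -⟩ := f_XAU 6 C6 K _ x2
  obtain ⟨-, -, u2', -⟩ := f_XAU 6 C6 K _ x2'
  obtain ⟨-, v1⟩ := u1 z hAz
  obtain ⟨-, v1'⟩ := u1' z hAz
  obtain ⟨y2, v2⟩ := u2 w hAw
  obtain ⟨y2', v2'⟩ := u2' w hAw
  obtain ⟨-, -, -, q2⟩ := f_XAU 6 C6 K _ y2
  obtain ⟨-, -, -, q2'⟩ := f_XAU 6 C6 K _ y2'
  have he' : z (E C6 (pv γ₁)) = c • (w (E C6 (pv γ₂)) : Lm C6 K) := by
    have e1 := hcz (E C6 γ₁)
    rw [hsE γ₁ h₁.1, hsK, one_smul, he, hsm, hcw, hsE γ₂ h₂.1, hsK, one_smul] at e1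
    exact e1.symm
  apply LinearEquiv.ext
  intro v
  have l1 : (z * g₁ * z⁻¹) v = z (g₁ (z⁻¹ v)) := rfl
  have l2 : (w * g₂ * w⁻¹) v = w (g₂ (w⁻¹ v)) := rfl
  have t1 : (RingEquiv.refl K) T = T := rfl
  have t2 : (RingEquiv.refl K) (c * T) = c * T := rfl
  rw [l1, l2, hg₁, hg₂, v1, v1', v2, v2', JYS_inv_apply, JYS_inv_apply, hsK, hsK, t1, t2, one_mul, one_mul, he, he',
    (q2 c).2, (q2' c).2]

theorem JYS (hRTF : RTF_stmt) (hSIG : SIG_stmt) (hSGR : SGR_stmt) (hGEP : GEP_stmt) (hUPR : UPR_stmt) (hUDC : UDC_stmt) (hJRK : JRK_stmt) :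
    JYS_stmt := by
  intro K _ h2 g hg γ hγ
  have hτ : ∀ x : K, (RingEquiv.refl K) ((RingEquiv.refl K) x) = x := fun _ => rfl
  obtain ⟨hpi, -, -, -, -, -, hsn, -⟩ := hRTF
  obtain ⟨hS1, -, -, -, hgen, -⟩ := hSGR K (RingEquiv.refl K) hτ
  have hstab1 : ∀ (i : Fin 6) (t : K) (x : Lm C6 K ≃ₗ[K] Lm C6 K), XI (RingEquiv.refl K) i t x → ∀ g, JYS_P γ g → JYS_P γ (x * g) := by
    intro i t x hx g hv
    obtain ⟨u, hu, huU, γ', hγ', c, hc0, hc⟩ := hv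
    refine ⟨x * u, mul_mem (hgen i t x (Or.inl hx)) hu, mul_mem (YSS_XUG _ i t x hx) huU, γ', hγ', c, hc0, ?_⟩
    intro T h h' hh hh'
    have e := hc T h h' hh hh'
    have e1 : x * g * h * (x * g)⁻¹ = x * (g * h * g⁻¹) * x⁻¹ := by group
    rw [e1, e]
    group
  have hstab2 : ∀ (i : Fin 6) (t : K) (y : Lm C6 K ≃ₗ[K] Lm C6 K), YI (RingEquiv.refl K) i t y → ∀ g, JYS_P γ g → JYS_P γ (y * g) := by
    intro i t y hy g hv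
    obtain ⟨u, hu, huU, γ', hγ', c, hc0, hc⟩ := hv
    obtain ⟨hD1, hD2⟩ := hUDC K (RingEquiv.refl K) hτ i
    obtain ⟨u', hu', hu'J, s, x, hxG, hxU, hxX, rfl⟩ := hD1 u hu huU
    obtain ⟨hUle, -, -⟩ := hUPR K i
    have hn := hD2 u' hu'J t y (Or.inr hy)
    have hyG : y ∈ GS (RingEquiv.refl K) := hgen i t y (Or.inr hy)
    have hnG : y * u' * y⁻¹ ∈ GS (RingEquiv.refl K) := mul_mem (mul_mem hyG hu') (inv_mem hyG)
    have key : ∀ (h h' : Lm C6 K ≃ₗ[K] Lm C6 K), g * h * g⁻¹ = u' * x * h' * (u' * x)⁻¹ →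
        y * g * h * (y * g)⁻¹ = (y * u' * y⁻¹) * ((y * x) * h' * (y * x)⁻¹) * (y * u' * y⁻¹)⁻¹ := by
      intro h h' e
      have e1 : y * g * h * (y * g)⁻¹ = y * (g * h * g⁻¹) * y⁻¹ := by group
      rw [e1, e]
      group
    rcases hJRK K h2 i γ' s t x y hγ' hxX hy with ⟨γ'', hγ'', c', hc', s', x', hx', he⟩ | hcom
    · refine ⟨y * u' * y⁻¹ * x', mul_mem hnG (hgen i s' x' (Or.inl hx')),
        mul_mem (hUle hn) (YSS_XUG _ i s' x' hx'), γ'', hγ'', c' * c, mul_ne_zero hc' hc0, ?_⟩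
      intro T h h'' hh hh''
      obtain ⟨h', -, hh'⟩ := hS1 γ' (c * T) hγ'
      have e := key h h' (hc T h h' hh hh')
      have e2 : (y * x) * h' * (y * x)⁻¹ = x' * h'' * x'⁻¹ :=
        JYS_conj hSIG hSGR h2 hsn hpi (y * x) x' (mul_mem hyG hxG) (hgen i s' x' (Or.inl hx')) γ' γ'' hγ' hγ'' c' he (c * T) h' h''
          hh' (by rw [← mul_assoc]; exact hh'')
      rw [e, e2]
      group
    · refine ⟨y * u' * y⁻¹, hnG, hUle hn, γ', hγ', c, hc0, ?_⟩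
      intro T h h' hh hh'
      have e := key h h' (hc T h h' hh hh')
      have e2 : (y * x) * h' * (y * x)⁻¹ = h' := by
        rw [hcom (c * T) h' hh', mul_inv_cancel_right]
      rw [e, e2]
  have hinv : ∀ (x : Lm C6 K ≃ₗ[K] Lm C6 K), (∃ i t, XI (RingEquiv.refl K) i t x ∨ YI (RingEquiv.refl K) i t x) →
      ∃ i t, XI (RingEquiv.refl K) i t x⁻¹ ∨ YI (RingEquiv.refl K) i t x⁻¹ := by
    rintro x ⟨i, t, (⟨h1, h2, h3⟩ | ⟨h1, h3⟩) | (⟨h1, h2, h3⟩ | ⟨h1, h3⟩)⟩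
    · exact ⟨i, -t, Or.inl (Or.inl ⟨h1, rfl, YSS_invX _ (ip_sr_self C6 i) t x h3⟩)⟩
    · exact ⟨i, -t, Or.inl (Or.inr ⟨h1, YSS_invS hSGR _ hτ _ (YSS_SR i h1) t x h3⟩)⟩
    · exact ⟨i, -t, Or.inr (Or.inl ⟨h1, rfl,
        YSS_invX _ (neg_root C6 (ip_sr_self C6 i)) t x h3⟩)⟩
    · exact ⟨i, -t, Or.inr (Or.inr ⟨h1, YSS_invS hSGR _ hτ _ (YSS_SRneg i h1) t x h3⟩)⟩
  have hgenst : ∀ (x : Lm C6 K ≃ₗ[K] Lm C6 K), (∃ i t, XI (RingEquiv.refl K) i t x ∨ YI (RingEquiv.refl K) i t x) →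
      ∀ g, JYS_P γ g → JYS_P γ (x * g) := by
    rintro x ⟨i, t, hx | hx⟩
    · exact hstab1 i t x hx
    · exact hstab2 i t x hx
  have hg' : g ∈ GP (RingEquiv.refl K) := by
    rw [← hGEP K (RingEquiv.refl K) hτ]
    exact hg
  have h0 : JYS_P γ (1 : Lm C6 K ≃ₗ[K] Lm C6 K) := by
    refine ⟨1, one_mem _, one_mem _, γ, hγ, 1, one_ne_zero, ?_⟩
    intro T h h' hh hh'
    have e : h = h' := by
      apply LinearEquiv.ext
      intro v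
      rw [hh v, hh' v, one_mul]
    rw [e]
  have main : JYS_P γ g := by
    unfold GP at hg'
    induction hg' using Subgroup.closure_induction_left with
    | one => exact h0
    | mul_left x hx y hy ih => exact hgenst x hx _ (ih (by
        have hy' : y ∈ GP (RingEquiv.refl K) := hy
        rw [← hGEP K (RingEquiv.refl K) hτ] at hy'
        exact hy'))
    | inv_mul_cancel x hx y hy ih => exact hgenst x⁻¹ (hinv x hx) _ (ih (by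
        have hy' : y ∈ GP (RingEquiv.refl K) := hy
        rw [← hGEP K (RingEquiv.refl K) hτ] at hy'
        exact hy'))
  exact main

end Pool.Agent.EXT
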