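import Pool.Agent.helper17.EXT.Spec

/-!
# Row ft:PA2 (MP_561ff4_al): opposite pairs with the same form value are conjugate
-/

set_option autoImplicit false

open Finset

namespace Pool.Agent.EXT

open Pool.Agent.EXC

theorem PA2 (hPAR : PAR_stmt) (hTFS : TFS_stmt) (hPCS : PCS_stmt) (hSGR : SGR_stmt) (hRTF : RTF_stmt) : PA2_stmt := by
  intro K _ τ hτ a b a' b' ha hb ha' hb' h0 hab
  obtain ⟨-, -, -, hneg, -, -, -, -, -, -, -, -, -, hth, -⟩ := hRTF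
  obtain ⟨-, -, -, -, -, hGS⟩ := hSGR K τ hτ
  have hmth : LR (-th) := ⟨neg_root C6 hth.1, by rw [hneg, hth.2]⟩
  have hip : ip C6 th (-th) = -2 := by rw [ip_neg_right, hth.1]
  have key : ∀ x y : Lm C6 K, ExS τ x → ExS τ y → fm C6 x y ≠ 0 →
      ∃ g ∈ GS τ, g x = E C6 th ∧ g y = fm C6 x y • (E C6 (-th) : Lm C6 K) := by
    intro x y hx hy hxy
    obtain ⟨m, -, -, hm⟩ := hPCS K τ hτ x y hx hy
    obtain ⟨-, -, -, -, -, -, hf, -⟩ := hTFS K τ hτ x y m hm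
    have hm2 : m = -2 := hf.1 hxy
    obtain ⟨g, hg, κ, -, -, h1, h2⟩ := hPAR K τ hτ x y m hm th (-th) hth hmth (by rw [hip, hm2])
    have h3 : fm C6 x y = κ := by
      have h4 := (hGS g hg).2.1.fm x y
      rw [h1, h2, fm_smul_right, fm_E_E C6 hth.1 hmth.1] at h4
      rw [← h4]
      simp
    exact ⟨g, hg, h1, by rw [h3, h2]⟩
  obtain ⟨g, hg, h1, h2⟩ := key a b ha hb h0
  obtain ⟨g', hg', h1', h2'⟩ := key a' b' ha' hb' (by rw [← hab]; exact h0)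
  refine ⟨g'⁻¹ * g, mul_mem (inv_mem hg') hg, ?_, ?_⟩
  · rw [LinearEquiv.mul_apply, h1, ← h1']
    exact LinearEquiv.symm_apply_apply g' a'
  · rw [LinearEquiv.mul_apply, h2, hab, ← h2']
    exact LinearEquiv.symm_apply_apply g' b'

end Pool.Agent.EXT
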