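import Pool.Agent.helper32.EXT.Spec7

/-!
# Row ft7:Z7B (MP_561ff4_al): type `-2`, `r = 7`
-/

set_option autoImplicit false

open Finset

namespace Pool.Agent.EXT

open Pool.Agent.EXC

theorem Z7B (hZ72 : Z72_stmt) (hCNY : CNY_stmt) (hTFS : TFS_stmt) (hESF : ESF_stmt) (hSIG : SIG_stmt) : Z7B_stmt := by
  intro K _ τ hτ a b y hT hY
  obtain ⟨ha, hb, -, -, -, -, hf, -⟩ := hTFS K τ hτ a b (-2) hT
  have h0 : fm C6 a b ≠ 0 := hf.2 rfl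
  obtain ⟨-, -, hsa, -⟩ := (hESF K τ hτ).2 a ha
  obtain ⟨-, -, hsb, -⟩ := (hESF K τ hτ).2 b hb
  have hσ : τ (fm C6 a b) = fm C6 a b := by
    rw [← (hSIG K τ hτ).2.2.2.2.1 a b, hsa, hsb]
  obtain ⟨y', hy', hN⟩ := hZ72 K τ hτ (fm C6 a b) hσ h0
  have hc : ∀ i, ∃ g : GF τ, y' i = g * y * g⁻¹ := by
    intro i
    obtain ⟨a', b', ha', hb', hab', hY'⟩ := hy' i
    exact hCNY K τ hτ a b a' b' y (y' i) ha hb ha' hb' h0 hab'.symm hY hY'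
  choose g hg using hc
  refine ⟨g, y' 0 * y' 1 * (y' 2)⁻¹, ?_, hN⟩
  have hm : ∀ i, y' i ∈ Subgroup.closure (Set.range fun i => g i * y * (g i)⁻¹) := fun i => by
    rw [hg i]
    exact Subgroup.subset_closure ⟨i, rfl⟩
  exact mul_mem (mul_mem (hm 0) (hm 1)) (inv_mem (hm 2))

end Pool.Agent.EXT
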